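import Pool.Agent.H92.LG.Loc
import Pool.Agent.H9.XM.Defs

/-!
# H10 LS, Unif: the variable is a uniformiser of the field of Laurent series
-/

set_option autoImplicit false

namespace Pool.Agent.H10.LS

open Pool.Agent.H54.TT Pool.Agent.H9.XM Pool.Agent.H92.LG

variable {E : Type} [Field E]

/-- the variable -/
noncomputable def tL (E : Type) [Field E] : LL E := (HahnSeries.single 1 1 : HahnSeries ℤ E)

theorem od_tL : od E (tL E) = 1 := HahnSeries.order_single (Γ := ℤ) (R := E) one_ne_zero

theorem tL_ne : tL E ≠ 0 := by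
  intro h
  have h1 := od_tL (E := E)
  rw [h] at h1
  have h2 : od E (0 : LL E) = 0 := HahnSeries.order_zero (Γ := ℤ) (R := E)
  rw [h2] at h1
  exact zero_ne_one h1

theorem norm_tL : ‖tL E‖ = 2⁻¹ := by
  rw [norm_ne tL_ne, od_tL, zpow_neg, zpow_one]

/-- every uniformiser of the order is a uniformiser -/
theorem isUnif_of {π : LL E} (h0 : π ≠ 0) (h1 : od E π = 1) : IsUnif π where
  pos := nnnorm_pos.2 h0
  lt_one := by
    rw [← NNReal.coe_lt_coe, coe_nnnorm, norm_ne h0, h1]
    norm_num
  exists_pow := by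
    intro x hx
    refine ⟨od E x, ?_⟩
    rw [← NNReal.coe_inj, coe_nnnorm, NNReal.coe_zpow, coe_nnnorm, norm_ne h0, h1, norm_ne hx, zpow_neg, zpow_neg, zpow_one,
      inv_zpow]

theorem isUnif_tL : IsUnif (tL E) := isUnif_of tL_ne od_tL

end Pool.Agent.H10.LS
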